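import Pool.Agent.H3.RCR.Stmts2

/-!
# Project RCR, module P10: a tight annulus is a stack of rings
-/

namespace Pool.Agent.H3.RCR.P10

open Pool.Agent.H3.RCR

/-- the facts about a tight annulus that we use -/
structure Cx (F : Finset Tri) (b N : ℕ) (C : ZMod b → ℕ) (D K : Finset Tri) (θ : ℕ → ZMod b)
    (d : ℕ → ℤ) : Prop where
  pre : Pre F
  two : 2 ≤ N
  z1 : (1 : ZMod b) ≠ 0
  z2 : (2 : ZMod b) ≠ 0
  z3 : (3 : ZMod b) ≠ 0
  inner : ∀ x ∈ verts (K \ D), d x ≠ 0 → d x ≠ N → IntV F D K x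
  cv : ∀ x ∈ verts (K \ D), d x = 0 → ∃ i, x = C i
  cm : ∀ i, C i ∈ verts (K \ D)
  nbr : ∀ x, IntV F D K x → ∀ y, Adj F x y → y ∈ verts (K \ D)
  th : ∀ x ∈ verts (K \ D), ∀ y ∈ verts (K \ D), Adj F x y →
    θ y = θ x ∨ θ y = θ x + 1 ∨ θ x = θ y + 1
  dd : ∀ x ∈ verts (K \ D), ∀ y ∈ verts (K \ D), Adj F x y → |d y - d x| ≤ 1
  dr : ∀ x ∈ verts (K \ D), 0 ≤ d x
  loc : ∀ x, IntV F D K x →
    ∃ p q, Loc F θ d x p q ∧ ((θ p = θ x + 1 ∧ θ x = θ q + 1) ∨ (θ x = θ p + 1 ∧ θ q = θ x + 1))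
  thC : ∀ i, θ (C i) = i
  dC : ∀ i, d (C i) = 0
  chC : ∀ i j, Adj F (C i) (C j) → j = i + 1 ∨ i = j + 1
  /-- the left face of the dart `C i, C (i+1)` -/
  lf : ∀ i, ∃ y, (C i, C (i + 1), y) ∈ F ∧ y ∈ verts (K \ D)
  /-- the right face -/
  rf : ∀ i y, (C (i + 1), C i, y) ∈ F → y ∈ verts D

/-- a ring at level `j` -/
structure Lev (F : Finset Tri) (b : ℕ) (D K : Finset Tri) (θ : ℕ → ZMod b)
    (d : ℕ → ℤ) (j : ℕ) (x : ZMod b → ℕ) : Prop where
  mem : ∀ i, x i ∈ verts (K \ D)
  dx : ∀ i, d (x i) = j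
  tx : ∀ i, θ (x i) = i
  up : ∀ i, ∃ y, (x i, x (i + 1), y) ∈ F ∧ d y = j + 1 ∧ y ∈ verts (K \ D)
  succ : ∀ i u z, u ∈ verts (K \ D) → (x i, u, z) ∈ F → d u = j + 1 →
    z = x (i - 1) ∨ d z = j + 1

/-- the quadrilaterals between two rings -/
def Quads (F : Finset Tri) (b : ℕ) (x x' : ZMod b → ℕ) : Prop := ∀ i,
    ((x i, x (i + 1), x' i) ∈ F ∧ (x (i + 1), x' (i + 1), x' i) ∈ F) ∨
    ((x i, x (i + 1), x' (i + 1)) ∈ F ∧ (x i, x' (i + 1), x' i) ∈ F)

variable {F D K : Finset Tri} {b N : ℕ} {C : ZMod b → ℕ} {θ : ℕ → ZMod b} {d : ℕ → ℤ}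

theorem lev0 (H : Cx F b N C D K θ d) : Lev F b D K θ d 0 C := by
  refine ⟨H.cm, by simpa using H.dC, H.thC, ?_, ?_⟩
  · intro i
    obtain ⟨y, hy, hyA⟩ := H.lf i
    refine ⟨y, hy, ?_, hyA⟩
    have h1 := H.dd _ (H.cm i) _ hyA (H.pre.adj_symm ⟨_, H.pre.rot2 hy⟩)
    have h2 := H.dr _ hyA
    rw [H.dC, abs_le] at h1
    have h3 : d y ≠ 0 := by
      intro h0
      obtain ⟨k, rfl⟩ := H.cv _ hyA h0
      have e1 := H.chC i k (H.pre.adj_symm ⟨_, H.pre.rot2 hy⟩)
      have e2 := H.chC (i + 1) k ⟨_, H.pre.rot _ _ _ hy⟩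
      rcases e1 with e1 | e1 <;> rcases e2 with e2 | e2
      · exact H.z1 (by linear_combination e1 - e2)
      · exact H.z1 (by linear_combination -(e1 + e2))
      · exact H.z3 (by linear_combination -(e1 + e2))
      · exact H.z1 (by linear_combination e2 - e1)
    push_cast
    omega
  · intro i u z huA hf hu
    have hu1 : d u = 1 := by simpa using hu
    have huI : IntV F D K u := H.inner u huA (by omega) (by have := H.two; omega)
    have hzA : z ∈ verts (K \ D) := H.nbr u huI z ⟨_, H.pre.rot _ _ _ hf⟩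
    have h1 := H.dd _ (H.cm i) _ hzA (H.pre.adj_symm ⟨_, H.pre.rot2 hf⟩)
    have h2 := H.dr _ hzA
    rw [H.dC, abs_le] at h1
    by_cases h0 : d z = 0
    · left
      obtain ⟨k, rfl⟩ := H.cv _ hzA h0
      rcases H.chC i k (H.pre.adj_symm ⟨_, H.pre.rot2 hf⟩) with e | e
      · exfalso
        subst e
        have h3 := H.rf i u (H.pre.rot2 hf)
        exact huI.2.1 h3
      · subst e
        simp
    · right
      push_cast
      omega

/-- consecutive vertices `a, u, c` of the next level in the link of a vertex of this level -/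
theorem mono (H : Cx F b N C D K θ d) {x a u c : ℕ} (huI : IntV F D K u) (hx : d x = d u - 1)
    (ha : d a = d u) (hc : d c = d u) (h1 : (x, a, u) ∈ F) (h2 : (x, u, c) ∈ F) :
    (θ a = θ u + 1 ∧ θ u = θ c + 1) ∨ (θ u = θ a + 1 ∧ θ c = θ u + 1) := by
  obtain ⟨p, q, hl, ht⟩ := H.loc u huI
  have hap : a = p := by
    rcases hl.all a (H.pre.adj_symm ⟨_, H.pre.rot _ _ _ h1⟩) ha with e | e
    · exact e
    · obtain ⟨s, hs, hs'⟩ := hl.pred_q
      subst e
      have e2 : x = s := by
        have h3 : (a, u, x) ∈ F := H.pre.rot _ _ _ h1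
        have h4 : (a, u, s) ∈ F := H.pre.rot2 hs
        exact H.pre.uniq _ _ _ _ h3 h4
      subst e2
      omega
  have hcq : c = q := by
    rcases hl.all c ⟨_, H.pre.rot _ _ _ h2⟩ hc with e | e
    · obtain ⟨s, hs, hs'⟩ := hl.succ_p
      subst e
      have e2 : x = s := H.pre.uniq _ _ _ _ (H.pre.rot _ _ _ h2) hs
      subst e2
      omega
    · exact e
  subst hap hcq
  exact ht

/-- the step from one level to the next -/
theorem step (H : Cx F b N C D K θ d) {j : ℕ} {x : ZMod b → ℕ} (hj : j + 1 < N)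
    (L : Lev F b D K θ d j x) : ∃ x' : ZMod b → ℕ, Lev F b D K θ d (j + 1) x' ∧
      Quads F b x x' ∧ ∀ i, IntV F D K (x' i) := by
  classical
  have inn : ∀ u ∈ verts (K \ D), d u = j + 1 → IntV F D K u := fun u hu hd =>
    H.inner u hu (by omega) (by omega)
  choose y hyF hyd hyA using L.up
  have hyx : ∀ i, Adj F (x i) (y i) := fun i => H.pre.adj_symm ⟨_, H.pre.rot2 (hyF i)⟩
  have hyx' : ∀ i, Adj F (x (i + 1)) (y i) := fun i => ⟨_, H.pre.rot _ _ _ (hyF i)⟩
  have hyt : ∀ i, θ (y i) = i ∨ θ (y i) = i + 1 := by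
    intro i
    have h1 := H.th _ (L.mem i) _ (hyA i) (hyx i)
    have h2 := H.th _ (L.mem (i + 1)) _ (hyA i) (hyx' i)
    rw [L.tx] at h1 h2
    rcases h1 with h1 | h1 | h1
    · exact Or.inl h1
    · exact Or.inr h1
    · exfalso
      rcases h2 with h2 | h2 | h2
      · exact H.z2 (by linear_combination -(h1 + h2))
      · exact H.z3 (by linear_combination -(h1 + h2))
      · exact H.z1 (by linear_combination h2 - h1)
  -- the next ring
  have key : ∀ i, ∃ v, θ v = i ∧ d v = j + 1 ∧ v ∈ verts (K \ D) ∧ Adj F (x i) v ∧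
      ((v = y i) ∨ (θ (y i) = i + 1 ∧ (x i, y i, v) ∈ F)) := by
    intro i
    rcases hyt i with h | h
    · exact ⟨y i, h, hyd i, hyA i, hyx i, Or.inl rfl⟩
    · have hI := inn _ (hyA i) (hyd i)
      obtain ⟨z, hz⟩ := hyx i
      have hzA := H.nbr _ hI z ⟨_, H.pre.rot _ _ _ hz⟩
      have hxz : Adj F (x i) z := H.pre.adj_symm ⟨_, H.pre.rot2 hz⟩
      have hyz : Adj F (y i) z := ⟨_, H.pre.rot _ _ _ hz⟩
      have t1 := H.th _ (hyA i) _ hzA hyz
      have t2 := H.th _ (L.mem i) _ hzA hxz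
      rw [L.tx] at t2
      rw [h] at t1
      have hd : d z = j + 1 := by
        rcases L.succ i _ _ (hyA i) hz (hyd i) with e | e
        · exfalso
          subst e
          rw [L.tx] at t1
          rcases t1 with t1 | t1 | t1
          · exact H.z2 (by linear_combination -t1)
          · exact H.z3 (by linear_combination -t1)
          · exact H.z1 (by linear_combination t1)
        · exact e
      refine ⟨z, ?_, hd, hzA, hxz, Or.inr ⟨h, hz⟩⟩
      obtain ⟨p, q, hl, ht⟩ := H.loc _ hI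
      have hz' : θ z = θ (y i) + 1 ∨ θ (y i) = θ z + 1 := by
        rcases hl.all z hyz (by rw [hd, hyd]) with e | e
        · subst e; exact hl.tp
        · subst e; exact hl.tq
      rw [h] at hz'
      rcases hz' with hz' | hz'
      · exfalso
        rcases t2 with t2 | t2 | t2
        · exact H.z2 (by linear_combination t2 - hz')
        · exact H.z1 (by linear_combination t2 - hz')
        · exact H.z3 (by linear_combination -(t2 + hz'))
      · linear_combination -hz'
  choose v hvt hvd hvA hvx hv1 using key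
  have hvI : ∀ i, IntV F D K (v i) := fun i => inn _ (hvA i) (hvd i)
  -- the other side
  have hv2 : ∀ i, v (i + 1) = y i ∨ (θ (y i) = i ∧ (x (i + 1), v (i + 1), y i) ∈ F) := by
    intro i
    by_cases hne : v (i + 1) = y i
    · exact Or.inl hne
    right
    -- the successor of a vertex of the next level other than `y i` is not `x i`
    have nxt : ∀ u ∈ verts (K \ D), d u = j + 1 → u ≠ y i → ∀ z, (x (i + 1), u, z) ∈ F →
        d z = j + 1 ∧ z ∈ verts (K \ D) ∧ Adj F (x (i + 1)) z := by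
      intro u hu hud hun z hz
      refine ⟨?_, H.nbr _ (inn u hu hud) z ⟨_, H.pre.rot _ _ _ hz⟩,
        H.pre.adj_symm ⟨_, H.pre.rot2 hz⟩⟩
      rcases L.succ (i + 1) u z hu hz hud with e | e
      · exfalso
        rw [add_sub_cancel_right] at e
        subst e
        have h1 : (x (i + 1), y i, x i) ∈ F := H.pre.rot _ _ _ (hyF i)
        exact hun (H.pre.uniq _ _ _ _ (H.pre.rot2 hz) (H.pre.rot2 h1)
          |> fun e => H.pre.uniq' (H.pre.rot _ _ _ hz) (H.pre.rot _ _ _ h1))
      · exact e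
    obtain ⟨z, hz⟩ := hvx (i + 1)
    obtain ⟨hzd, hzA, hxz⟩ := nxt _ (hvA (i + 1)) (hvd (i + 1)) hne z hz
    have hz' : θ z = θ (v (i + 1)) + 1 ∨ θ (v (i + 1)) = θ z + 1 := by
      obtain ⟨p, q, hl, ht⟩ := H.loc _ (hvI (i + 1))
      rcases hl.all z ⟨_, H.pre.rot _ _ _ hz⟩ (by rw [hzd, hvd]) with e | e
      · subst e; exact hl.tp
      · subst e; exact hl.tq
    rw [hvt] at hz'
    have hzI := inn z hzA hzd
    rcases hz' with hz' | hz'
    · exfalso
      rcases hv1 (i + 1) with hv | ⟨hv, hv'⟩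
      · have hzn : z ≠ y i := by
          intro e
          subst e
          rcases hyt i with h | h
          · exact H.z2 (by linear_combination h - hz')
          · exact H.z1 (by linear_combination h - hz')
        obtain ⟨z', h1⟩ := hxz
        obtain ⟨hd', hA', hx'⟩ := nxt z hzA hzd hzn z' h1
        have t := H.th _ (L.mem (i + 1)) _ hA' hx'
        rw [L.tx] at t
        rcases mono H hzI (by rw [L.dx, hzd]; ring) (by rw [hvd, hzd]) (by rw [hd', hzd]) hz h1
          with ⟨m1, m2⟩ | ⟨m1, m2⟩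
        · rw [hvt] at m1
          exact H.z2 (by linear_combination -(hz' + m1))
        · rcases t with t | t | t
          · exact H.z2 (by linear_combination t - m2 - hz')
          · exact H.z1 (by linear_combination t - m2 - hz')
          · exact H.z3 (by linear_combination -(t + m2 + hz'))
      · rcases mono H (hvI (i + 1)) (by rw [L.dx, hvd]; ring) (by rw [hyd, hvd])
          (by rw [hzd, hvd]) hv' hz with ⟨m1, m2⟩ | ⟨m1, m2⟩
        · rw [hvt] at m2
          exact H.z2 (by linear_combination -(m2 + hz'))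
        · rw [hvt, hv] at m1
          exact H.z2 (by linear_combination -m1)
    · by_cases hzy : z = y i
      · subst hzy
        exact ⟨by linear_combination -hz', hz⟩
      · exfalso
        obtain ⟨z', h1⟩ := hxz
        obtain ⟨hd', hA', hx'⟩ := nxt z hzA hzd hzy z' h1
        have t := H.th _ (L.mem (i + 1)) _ hA' hx'
        rw [L.tx] at t
        rcases mono H hzI (by rw [L.dx, hzd]; ring) (by rw [hvd, hzd]) (by rw [hd', hzd]) hz h1
          with ⟨m1, m2⟩ | ⟨m1, m2⟩
        · rcases t with t | t | t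
          · exact H.z2 (by linear_combination -(t + m2 + hz'))
          · exact H.z3 (by linear_combination -(t + m2 + hz'))
          · exact H.z1 (by linear_combination t - m2 - hz')
        · rw [hvt] at m1
          exact H.z2 (by linear_combination -(m1 + hz'))
  have quads : Quads F b x v := by
    intro i
    rcases hyt i with h | h
    · left
      have e : v i = y i := by
        rcases hv1 i with e | ⟨e, -⟩
        · exact e
        · exact absurd (h.symm.trans e) (fun e => H.z1 (by linear_combination -e))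
      rw [e]
      refine ⟨hyF i, ?_⟩
      rcases hv2 i with e' | ⟨-, e'⟩
      · exfalso
        have h1 := hvt (i + 1)
        rw [e', h] at h1
        exact H.z1 (by linear_combination -h1)
      · exact e'
    · right
      have e : v (i + 1) = y i := by
        rcases hv2 i with e | ⟨e, -⟩
        · exact e
        · exact absurd (e.symm.trans h) (fun e => H.z1 (by linear_combination -e))
      rw [e]
      refine ⟨hyF i, ?_⟩
      rcases hv1 i with e' | ⟨-, e'⟩
      · exfalso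
        have h1 := hvt i
        rw [e', h] at h1
        exact H.z1 (by linear_combination h1)
      · exact e'
  have low : ∀ i, ∃ s, (v i, s, v (i + 1)) ∈ F ∧ d s = j := by
    intro i
    rcases quads i with ⟨-, h⟩ | ⟨-, h⟩
    · exact ⟨_, H.pre.rot2 h, L.dx _⟩
    · exact ⟨_, H.pre.rot2 h, L.dx _⟩
  have isp : ∀ i p q, Loc F θ d (v i) p q → v (i + 1) = p := by
    intro i p q hl
    obtain ⟨s, hs, hsd⟩ := low i
    rcases hl.all (v (i + 1)) (H.pre.adj_symm ⟨_, H.pre.rot2 hs⟩) (by rw [hvd, hvd]) with e | e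
    · exact e
    · exfalso
      obtain ⟨a, ha, ha'⟩ := hl.pred_q
      rw [← e] at ha
      have e2 : s = a := H.pre.uniq _ _ _ _ (H.pre.rot2 hs) (H.pre.rot2 ha)
      rw [← e2, hsd, hvd] at ha'
      omega
  have isq : ∀ i p q, Loc F θ d (v i) p q → v (i - 1) = q := by
    intro i p q hl
    obtain ⟨s, hs, hsd⟩ := low (i - 1)
    rw [sub_add_cancel] at hs
    have hs2 : (v i, v (i - 1), s) ∈ F := H.pre.rot2 hs
    rcases hl.all (v (i - 1)) ⟨_, hs2⟩ (by rw [hvd, hvd]) with e | e
    · exfalso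
      obtain ⟨a, ha, ha'⟩ := hl.succ_p
      rw [← e] at ha
      have e2 : s = a := H.pre.uniq _ _ _ _ hs2 ha
      rw [← e2, hsd, hvd] at ha'
      omega
    · exact e
  refine ⟨v, ⟨hvA, by simpa using hvd, hvt, ?_, ?_⟩, quads, hvI⟩
  · intro i
    obtain ⟨p, q, hl, -⟩ := H.loc _ (hvI i)
    have e := isp i p q hl
    obtain ⟨a, ha, ha'⟩ := hl.succ_p
    rw [← e] at ha
    refine ⟨a, ha, ?_, H.nbr _ (hvI i) a (H.pre.adj_symm ⟨_, H.pre.rot2 ha⟩)⟩
    rw [ha', hvd]
    push_cast
    ring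
  · intro i u z hu hf hud
    push_cast at hud ⊢
    obtain ⟨p, q, hl, -⟩ := H.loc _ (hvI i)
    have hvz : Adj F (v i) z := H.pre.adj_symm ⟨_, H.pre.rot2 hf⟩
    have hzA := H.nbr _ (hvI i) z hvz
    have h1 := H.dd _ hu _ hzA ⟨_, H.pre.rot _ _ _ hf⟩
    have h2 := H.dd _ (hvA i) _ hzA hvz
    rw [abs_le, hud] at h1
    rw [abs_le, hvd] at h2
    by_cases h3 : d z = j + 1
    · left
      rw [isq i p q hl]
      rcases hl.all z hvz (by rw [h3, hvd]) with e | e
      · exfalso
        obtain ⟨a, ha, ha'⟩ := hl.pred_p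
        rw [← e] at ha
        have e2 : u = a := H.pre.uniq _ _ _ _ (H.pre.rot2 hf) (H.pre.rot2 ha)
        rw [← e2, hud, hvd] at ha'
        omega
      · exact e
    · right
      omega

theorem stack (H : Cx F b N C D K θ d) (M : ℕ) (hM : M + 1 ≤ N) :
    ∃ lam : ℕ → ZMod b → ℕ, lam 0 = C ∧ (∀ j ≤ M, Lev F b D K θ d j (lam j)) ∧
      (∀ j < M, Quads F b (lam j) (lam (j + 1))) ∧
      ∀ j, 1 ≤ j → j ≤ M → ∀ i, IntV F D K (lam j i) := by
  induction M with
  | zero =>
    refine ⟨fun _ => C, rfl, ?_, by omega, by omega⟩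
    intro j hj
    obtain rfl : j = 0 := by omega
    exact lev0 H
  | succ M ih =>
    obtain ⟨lam, h0, h1, h2, h3⟩ := ih (by omega)
    obtain ⟨x', g1, g2, g3⟩ := step H (j := M) (x := lam M) (by omega) (h1 M le_rfl)
    refine ⟨Function.update lam (M + 1) x', ?_, ?_, ?_, ?_⟩
    · rw [Function.update_of_ne (by omega)]
      exact h0
    · intro j hj
      by_cases e : j = M + 1
      · subst e
        rw [Function.update_self]
        exact g1
      · rw [Function.update_of_ne e]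
        exact h1 j (by omega)
    · intro j hj
      by_cases e : j = M
      · subst e
        rw [Function.update_self, Function.update_of_ne (by omega)]
        exact g2
      · rw [Function.update_of_ne (by omega), Function.update_of_ne (by omega)]
        exact h2 j (by omega)
    · intro j hj1 hj i
      by_cases e : j = M + 1
      · subst e
        rw [Function.update_self]
        exact g3 i
      · rw [Function.update_of_ne e]
        exact h3 j hj1 (by omega) i

theorem zne {b k : ℕ} (hb : k < b) (hk : 1 ≤ k) : (k : ZMod b) ≠ 0 := by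
  intro h
  rw [ZMod.natCast_eq_zero_iff] at h
  exact absurd (Nat.le_of_dvd (by omega) h) (by omega)

theorem cx (h0 : P0Stmt) (h6 : P6Stmt) (h9 : P9Stmt) (hF : Sph F) (hb : 4 ≤ b) (hN : 2 ≤ N)
    (T : Tight F b N C D K θ d) : Cx F b N C D K θ d := by
  obtain ⟨q1, q2, q3, q4, q5, q6, q7, q8, q9, q10⟩ := h0 F D K b N C θ d hF (by omega) T.toAnn
  have jmp : ∀ i, Jump F D (C (i + 1)) (C i) := by
    intro i
    have := (T.sideD.jump (C (i + 1)) (C i)).2 ⟨-(i + 1), by simp, by congr 1; ring⟩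
    exact this
  refine ⟨hF.toPre, hN, ?_, ?_, ?_, ?_, ?_, fun i => (q2 i).1, q5, ?_, ?_, fun x hx => (T.dr x hx).1,
    h9 F D K b N C θ d hF hb hN T, T.thC, T.dC, T.chC, ?_, ?_⟩
  · simpa using zne (b := b) (k := 1) (by omega) (by omega)
  · simpa using zne (b := b) (k := 2) (by omega) (by omega)
  · simpa using zne (b := b) (k := 3) (by omega) (by omega)
  · intro x hx hx0 hxN
    rcases q1 x hx with h | ⟨i, rfl⟩ | ⟨h, h'⟩
    · exact h
    · exact absurd (T.dC i) hx0
    · exact absurd (q3 x h h').2.2 hxN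
  · intro x hx hx0
    rcases q1 x hx with h | h | ⟨h, h'⟩
    · have := (h6 F D K b N C θ d hF hb hN T x h).2.2.1
      omega
    · exact h
    · have := (q3 x h h').2.2
      omega
  · intro x hx y hy hxy
    obtain ⟨c, hc | hc⟩ := q8 x hx y hy hxy
    · exact T.thA _ _ _ hc
    · rcases T.thA _ _ _ hc with h | h | h
      · exact Or.inl h.symm
      · exact Or.inr (Or.inr h)
      · exact Or.inr (Or.inl h)
  · intro x hx y hy hxy
    exact (q9 x hx y hy hxy).2.2.2
  · intro i
    obtain ⟨h1, y, h2, h3⟩ := jmp i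
    refine ⟨y, h2, ?_⟩
    obtain ⟨z, Z, -, hZ, -⟩ := T.sideK
    have hK : (C i, C (i + 1), y) ∈ K := by
      by_contra hc
      exact (q2 i).2.2 (mem_verts.2 ⟨_, _, Finset.mem_sdiff.2 ⟨h2, hc⟩⟩)
    refine mem_verts.2 ⟨C i, C (i + 1), Finset.mem_sdiff.2 ⟨hZ.rot _ _ _ (hZ.rot _ _ _ hK), ?_⟩⟩
    intro hc
    exact h3 (T.sideD.rot _ _ _ hc)
  · intro i y hy
    obtain ⟨⟨c, hc⟩, -⟩ := jmp i
    have e : y = c := hF.uniq _ _ _ _ hy (T.sideD.sub hc)
    rw [e]
    have : (c, C (i + 1), C i) ∈ D := T.sideD.rot _ _ _ (T.sideD.rot _ _ _ hc)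
    exact mem_verts.2 ⟨_, _, this⟩

/-- P10 -/
theorem p10 (h0 : P0Stmt) (h6 : P6Stmt) (h9 : P9Stmt) : P10Stmt := by
  intro F D K b N C θ d hF hb hN T
  have H := cx h0 h6 h9 hF hb hN T
  obtain ⟨lam, g0, g1, g2, g3⟩ := stack H (N - 1) (by omega)
  refine ⟨lam, g0, ⟨?_, ?_, ?_, ?_⟩, g3⟩
  · intro j hj j' hj' i i' e
    have e1 := (g1 j hj).dx i
    have e2 := (g1 j' hj').dx i'
    have e3 := (g1 j hj).tx i
    have e4 := (g1 j' hj').tx i'
    rw [e] at e1 e3
    exact ⟨by omega, e3.symm.trans e4⟩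
  · rw [g0]
    exact T.sideD
  · intro j h1 h2 i
    exact (g3 j h1 h2 i).2.1
  · intro j hj i
    exact g2 j hj i

end Pool.Agent.H3.RCR.P10
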