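import Pool.Agent.H3.RCR.Stmts2

/-!
# Project RCR, module S4: selection of disjoint annuli around all terminals
-/

namespace Pool.Agent.H3.RCR.S4

open Pool.Agent.H3.RCR Relation

theorem Nb_mono {a b : ℕ} (h : a ≤ b) : Nb a ≤ Nb b := by
  unfold Nb Lb
  gcongr

/-- the radii -/
def rho (Hf : ℕ → ℕ → ℕ) (k Δ : ℕ) : ℕ → ℕ
  | 0 => 1
  | q + 1 => rho Hf k Δ q +
      Hf (k * (Δ + 1) ^ (rho Hf k Δ q + 1)) (Nb (k * (Δ + 1) ^ (rho Hf k Δ q + 1)))

theorem rho_pos (Hf : ℕ → ℕ → ℕ) (k Δ q : ℕ) : 1 ≤ rho Hf k Δ q := by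
  induction q with
  | zero => exact le_rfl
  | succ q ih => unfold rho; omega

theorem rho_mono (Hf : ℕ → ℕ → ℕ) (k Δ : ℕ) : Monotone (rho Hf k Δ) := by
  refine monotone_nat_of_le_succ fun q => ?_
  conv_rhs => unfold rho
  omega

/-- S4 -/
theorem s4 (hS1 : S1Stmt) (hS2 : S2Stmt) (hS3 : S3Stmt) (hC1 : SC1Stmt) (hC5 : SC5Stmt)
    (hC6 : SC6Stmt) : S4Stmt := by
  classical
  intro k Δ
  choose Hf hHf using hC5
  set ρ : ℕ → ℕ := rho Hf k Δ with hρ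
  refine ⟨ρ k + 2, ?_⟩
  intro F T v0 hF hT hTne hTk hdeg hv0 hv0R
  have s2 := hS2 F T v0 (ρ k + 2) hF hT hv0 hv0R
  -- `v0` is never in a component
  have v0n : ∀ t ∈ T, ∀ s ≤ ρ k + 2, v0 ∉ cpt F T v0 s t := by
    intro t ht s hs h
    have := ((s2 t ht).1 s hs).2 v0 h
    exact this.2 ReflTransGen.refl
  have mono : ∀ t ∈ T, ∀ s n, s + n ≤ ρ k + 2 → cpt F T v0 s t ⊆ cpt F T v0 (s + n) t := by
    intro t ht s n
    induction n with
    | zero => intro _; exact subset_rfl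
    | succ n ih =>
      intro h
      exact (ih (by omega)).trans ((s2 t ht).2.1 (s + n) (by omega)).1
  have mono' : ∀ t ∈ T, ∀ s s', s ≤ s' → s' ≤ ρ k + 2 →
      cpt F T v0 s t ⊆ cpt F T v0 s' t := by
    intro t ht s s' h h'
    have := mono t ht s (s' - s) (by omega)
    rwa [Nat.add_sub_cancel' h] at this
  -- the classes
  let E : ℕ → ℕ → ℕ → Prop := fun q x y => x = y ∨ (x ∈ T ∧ y ∈ T ∧
    cpt F T v0 (ρ (min q k)) x = cpt F T v0 (ρ (min q k)) y)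
  have rle : ∀ q, ρ (min q k) ≤ ρ k := fun q => rho_mono Hf k Δ (min_le_right _ _)
  obtain ⟨q, hq, hE⟩ := hS3 T E hTne
    (by
      intro q
      refine ⟨fun x => Or.inl rfl, ?_, ?_⟩
      · rintro x y (rfl | ⟨h1, h2, h3⟩)
        · exact Or.inl rfl
        · exact Or.inr ⟨h2, h1, h3.symm⟩
      · rintro x y z (rfl | ⟨h1, h2, h3⟩) h
        · exact h
        · rcases h with rfl | ⟨g1, g2, g3⟩
          · exact Or.inr ⟨h1, h2, h3⟩
          · exact Or.inr ⟨h1, g2, h3.trans g3⟩)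
    (by
      rintro q x y (rfl | ⟨h1, h2, h3⟩)
      · exact Or.inl rfl
      · refine Or.inr ⟨h1, h2, ?_⟩
        have l1 : ρ (min q k) ≤ ρ (min (q + 1) k) := rho_mono Hf k Δ (by omega)
        have l2 := rle (q + 1)
        refine (s2 x h1).2.2.2.2.1 _ (by omega) y h2 ⟨x, ?_, ?_⟩
        · exact ((s2 x h1).1 _ (by omega)).1
        · apply mono' y h2 _ _ l1 (by omega)
          rw [← h3]
          exact ((s2 x h1).1 _ (by omega)).1)
  have hqk : q + 1 ≤ k := by omega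
  have hqq : ρ (q + 1) ≤ ρ k := rho_mono Hf k Δ hqk
  have hmin : min q k = q := by omega
  have hmin' : min (q + 1) k = q + 1 := by omega
  have same : ∀ t ∈ T, ∀ t' ∈ T, cpt F T v0 (ρ (q + 1)) t = cpt F T v0 (ρ (q + 1)) t' →
      cpt F T v0 (ρ q) t = cpt F T v0 (ρ q) t' := by
    intro t ht t' ht' h
    have h1 := hE t ht t' ht' (Or.inr ⟨ht, ht', by rw [hmin']; exact h⟩)
    rcases h1 with rfl | ⟨-, -, h1⟩
    · rfl
    · rwa [hmin] at h1
  set β := k * (Δ + 1) ^ (ρ q + 1) with hβ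
  have hρs : ρ (q + 1) = ρ q + Hf β (Nb β) := rfl
  have hρ1 : 1 ≤ ρ q := rho_pos Hf k Δ q
  -- one annulus for every terminal
  have one : ∀ t ∈ T, ∃ g : GD, g.Good F ∧
      (∀ x ∈ cpt F T v0 (ρ q) t, ∀ p r, (x, p, r) ∈ F → (x, p, r) ∈ g.D) ∧
      verts g.K ⊆ cpt F T v0 (ρ (q + 1)) t := by
    intro t ht
    obtain ⟨h1, h2, h3, h4, h5, h6⟩ := s2 t ht
    let Kc : ℕ → Finset ℕ := fun s => cpt F T v0 (ρ q + s) t
    have hCh : Chain F (Hf β (Nb β)) Kc := by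
      refine ⟨?_, ?_, ?_, ?_, ?_⟩
      · intro s hs x hx
        exact (Finset.mem_filter.1 hx).1
      · intro s hs
        exact (h2 (ρ q + s) (by omega)).1
      · intro s hs
        exact (h2 (ρ q + s) (by omega)).2
      · intro s hs
        exact h3 (ρ q + s) (by omega)
      · intro s hs
        exact h4 (ρ q + s) (by omega)
    obtain ⟨p1, r1, hf1⟩ := mem_verts.1 (hT ht)
    obtain ⟨p2, r2, hf2⟩ := mem_verts.1 hv0
    have hin : ∀ x, isV x (t, p1, r1) → x ∈ Kc 0 := by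
      have ad : ∀ y, Adj F t y → y ∈ Kc 0 := by
        intro y hy
        have := (h2 (ρ q - 1) (by omega)).2 t (h1 _ (by omega)).1 y hy
        rwa [Nat.sub_add_cancel hρ1] at this
      rintro x (rfl | rfl | rfl)
      · exact (h1 (ρ q) (by omega)).1
      · exact ad _ ⟨_, hf1⟩
      · exact ad _ (hF.adj_symm ⟨_, hF.rot2 hf1⟩)
    have hout : ∀ x, isV x (v0, p2, r2) → x ∉ Kc (Hf β (Nb β)) := by
      have ad : ∀ y, Adj F y v0 → y ∉ Kc (Hf β (Nb β)) := by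
        intro y hy hm
        exact v0n t ht _ (by omega) ((h2 (ρ q + Hf β (Nb β)) (by omega)).2 y hm v0 hy)
      rintro x (rfl | rfl | rfl)
      · exact v0n t ht _ (by omega)
      · exact ad _ (hF.adj_symm ⟨_, hf2⟩)
      · exact ad _ ⟨_, hF.rot2 hf2⟩
    obtain ⟨ψ, hψ⟩ := hC1 F _ _ hF hf1 hf2
    obtain ⟨s, b, C, c1, c2, c3, c4, c5, c6, c7, D, c8, c9, c10⟩ := hHf β (Nb β) F Kc _ _ ψ hF hCh
      hf1 hf2 hin hout hψ (by
        intro B hB
        have hsub : B ⊆ ball F T (ρ q + 1) := by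
          intro x hx
          exact h6 (ρ q + 1) (by omega) x (hB x hx).1 (hB x hx).2
        calc B.card ≤ (ball F T (ρ q + 1)).card := Finset.card_le_card hsub
          _ ≤ T.card * (Δ + 1) ^ (ρ q + 1) := hS1 F T Δ _ hF.toPre hT hdeg
          _ ≤ β := Nat.mul_le_mul_right _ hTk)
    obtain ⟨K, θ, d, e1, e2, e3⟩ := hC6 F _ s (Nb β) b (Nb b) Kc _ _ ψ C D hF hCh hf1 hf2 hin hout
      hψ c1 (by unfold Nb; omega) (Nb_mono c2) c3 c4 c5 c6 c7 c8 c9 c10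
    refine ⟨⟨b, C, D, K, θ, d⟩, ⟨c3.three, e1⟩, e2, ?_⟩
    exact e3.trans (mono' t ht _ _ (by omega) (by omega))
  -- one representative for every class
  let 𝒞 : Finset (Finset ℕ) := T.image (fun t => cpt F T v0 (ρ q) t)
  have rep : ∀ c : Finset ℕ, ∃ g : GD, c ∈ 𝒞 → ∃ t ∈ T, cpt F T v0 (ρ q) t = c ∧ g.Good F ∧
      (∀ x ∈ c, ∀ p r, (x, p, r) ∈ F → (x, p, r) ∈ g.D) ∧
      verts g.K ⊆ cpt F T v0 (ρ (q + 1)) t := by
    intro c
    by_cases hc : c ∈ 𝒞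
    · obtain ⟨t, ht, rfl⟩ := Finset.mem_image.1 hc
      obtain ⟨g, g1, g2, g3⟩ := one t ht
      exact ⟨g, fun _ => ⟨t, ht, rfl, g1, g2, g3⟩⟩
    · exact ⟨⟨0, fun _ => 0, ∅, ∅, fun _ => 0, fun _ => 0⟩, fun h => absurd h hc⟩
  choose G hG using rep
  refine ⟨𝒞.toList.map G, ?_, ?_, ?_, ?_⟩
  · intro g hg
    obtain ⟨c, hc, rfl⟩ := List.mem_map.1 hg
    obtain ⟨t, ht, -, h1, -⟩ := hG c (Finset.mem_toList.1 hc)
    exact h1
  · rw [List.pairwise_map]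
    refine 𝒞.nodup_toList.pairwise_of_forall_ne ?_
    intro c hc c' hc' hne
    obtain ⟨t, ht, h1, -, -, h2⟩ := hG c (Finset.mem_toList.1 hc)
    obtain ⟨t', ht', h1', -, -, h2'⟩ := hG c' (Finset.mem_toList.1 hc')
    rw [Finset.disjoint_left]
    intro x hx hx'
    apply hne
    rw [← h1, ← h1']
    exact same t ht t' ht' ((s2 t ht).2.2.2.2.1 _ (by omega) t' ht' ⟨x, h2 hx, h2' hx'⟩)
  · intro t ht
    have hc : cpt F T v0 (ρ q) t ∈ 𝒞 := Finset.mem_image_of_mem _ ht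
    refine ⟨G (cpt F T v0 (ρ q) t), List.mem_map.2 ⟨_, Finset.mem_toList.2 hc, rfl⟩, ?_⟩
    obtain ⟨t', ht', h1, -, h2, -⟩ := hG _ hc
    intro p r h
    exact h2 t ((s2 t ht).1 _ (by omega)).1 p r h
  · intro g hg
    obtain ⟨c, hc, rfl⟩ := List.mem_map.1 hg
    obtain ⟨t, ht, -, -, -, h1⟩ := hG c (Finset.mem_toList.1 hc)
    intro h
    exact v0n t ht _ (by omega) (h1 h)

end Pool.Agent.H3.RCR.S4
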